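import Mathlib
import Pool.Agent.H204R3.CM.Defs
import Pool.Agent.H977R3.CM.Defs

/-!
# Families of abelian varieties with a fibre of CM type: definitions
-/

set_option autoImplicit false

namespace Pool.Agent.TH170.VH

open NumberField Module Pool.Agent.H204R3.CM Pool.Agent.H977R3.CM

/-- The power `A ^ n` of the complex torus `A` with the rational homology `W` and the tangent space
`T`. -/
def pow (n : ℕ) {W T : Type} [AddCommGroup W] [AddCommGroup T] (per : W →+ T) :
    (Fin n → W) →+ (Fin n → T) where
  toFun w k := per (w k)
  map_zero' := by
    funext k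
    exact map_zero per
  map_add' v w := by
    funext k
    exact map_add per _ _

/-- The forms of degree `2 m` on the rational homology of the power `A ^ n`. -/
abbrev Form (W : Type) [AddCommGroup W] [Module ℚ W] (n m : ℕ) : Type :=
  (Fin n → W) [⋀^Fin m × Fin 2]→ₗ[ℚ] ℚ

/-- `A` is a complex torus with the rational homology `W` and the tangent space `T`. -/
structure IsTorus {W T : Type} [AddCommGroup W] [Module ℚ W] [AddCommGroup T] [Module ℂ T]
    (per : W →+ T) : Prop where
  finite : FiniteDimensional ℚ W
  dim : finrank ℚ W = 2 * finrank ℂ T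
  span : Submodule.span ℝ (Set.range per) = ⊤

/-- The rational alternating form `e` and its real extension `ψ` to the tangent space are a Riemann
form. -/
structure IsRiemannForm {W T : Type} [AddCommGroup W] [Module ℚ W] [AddCommGroup T] [Module ℂ T]
    (per : W →+ T) (e : W →ₗ[ℚ] W →ₗ[ℚ] ℚ) (ψ : T →ₗ[ℝ] T →ₗ[ℝ] ℝ) : Prop where
  alternating : ∀ v, e v v = 0
  restrict : ∀ v w, ψ (per v) (per w) = e v w
  invariant : ∀ u v, ψ (Complex.I • u) (Complex.I • v) = ψ u v
  positive : ∀ u, u ≠ 0 → 0 < ψ u (Complex.I • u)

/-- The complex torus is an abelian variety: it has a Riemann form. -/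
def IsPolarizable {W T : Type} [AddCommGroup W] [Module ℚ W] [AddCommGroup T] [Module ℂ T]
    (per : W →+ T) : Prop :=
  ∃ (e : W →ₗ[ℚ] W →ₗ[ℚ] ℚ) (ψ : T →ₗ[ℝ] T →ₗ[ℝ] ℝ), IsRiemannForm per e ψ

/-- Let `x b`, `b : X`, be linear coordinates on `W ⊗ ℂ` and `τ` an involution of `X`. The form `f` on
`(W ⊗ ℂ) ^ n` is a linear combination of monomials in these coordinates in which, for each `b`, the
coordinates `x b` and `x (τ b)` occur equally often; that is, `f` is invariant under the torus of
the diagonal automorphisms with the eigenvalues `z b`, where `z b * z (τ b) = 1`. -/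
def IsInvariant {W X : Type} [AddCommGroup W] [Module ℚ W] [DecidableEq X] [Fintype X] (τ : X → X)
    (x : X → W →ₗ[ℚ] ℂ) {n m : ℕ} (f : Form W n m) : Prop :=
  ∃ c : (Fin m × Fin 2 → Fin n × X) → ℂ,
    (∀ I, c I ≠ 0 → ∀ b, (Finset.univ.filter fun l => (I l).2 = b).card =
      (Finset.univ.filter fun l => (I l).2 = τ b).card) ∧
    ∀ v, ((f v : ℚ) : ℂ) = ∑ I, c I * ∏ l, x (I l).2 (v l (I l).1)

/-- The rank of the Hodge group of `A` is `dim A`: for some basis of `W ⊗ ℂ` the torus of diagonal
automorphisms, of dimension `dim A`, described in `IsInvariant` fixes all Hodge classes on all powers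
of `A` (the Hodge group consists of the automorphisms that do this). -/
def HasFullRank {W T : Type} [AddCommGroup W] [Module ℚ W] [AddCommGroup T] [Module ℂ T]
    (per : W →+ T) : Prop :=
  ∃ (X : Type) (_ : DecidableEq X) (_ : Fintype X) (τ : X → X) (x : X → W →ₗ[ℚ] ℂ),
    (∀ b, τ (τ b) = b) ∧ (∀ b, τ b ≠ b) ∧ Fintype.card X = finrank ℚ W ∧
    (LinearIndependent ℂ fun b => (x b : W → ℂ)) ∧
    ∀ (n m : ℕ) (f : Form W n m), IsHodge (pow n per) f → IsInvariant τ x f

/-- The theorem of Hazama (a published theorem, used as a hypothesis): if the rank of the Hodge group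
of a complex abelian variety is equal to the dimension then all rational Hodge classes on all powers
are linear combinations of wedge products of rational Hodge classes of degree two. -/
def HazamaTheorem : Prop :=
  ∀ (W T : Type) [AddCommGroup W] [Module ℚ W] [AddCommGroup T] [Module ℂ T] (per : W →+ T),
    IsTorus per → IsPolarizable per → HasFullRank per → ∀ n, HodgeGenerated (pow n per)

/-- A family of complex tori over `S`, the rational homology groups of which are identified with `W`
(a family over a simply connected space, such as the universal covering of the base of a given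
family). -/
structure Family (W : Type) [AddCommGroup W] where
  S : Type
  T : S → Type
  [groupT : ∀ s, AddCommGroup (T s)]
  [moduleT : ∀ s, Module ℂ (T s)]
  per : ∀ s, W →+ T s

attribute [instance] Family.groupT Family.moduleT

variable {W : Type} [AddCommGroup W] [Module ℚ W]

/-- The class `f` (a flat section of the cohomology of the `n`-th fibre powers) is a Hodge class on all
fibres. -/
def Family.IsHodgeEverywhere (F : Family W) {n m : ℕ} (f : Form W n m) : Prop :=
  ∀ s, IsHodge (pow n (F.per s)) f

/-- An abelian scheme: the fibres are abelian varieties, and there is a Hodge generic fibre (a very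
general fibre is such): its powers have only those Hodge classes that are Hodge classes on all
fibres. -/
structure Family.IsAbelian (F : Family W) : Prop where
  torus : ∀ s, IsTorus (F.per s)
  polarizable : ∀ s, IsPolarizable (F.per s)
  generic : ∃ s, ∀ (n m : ℕ) (f : Form W n m), IsHodge (pow n (F.per s)) f →
    F.IsHodgeEverywhere f

/-- The wedge products of degree `2 m` of flat rational classes of degree two on the `n`-th fibre powers
that are Hodge classes on all fibres. -/
def Family.flatWedges (F : Family W) (n m : ℕ) : Set (Form W n m) :=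
  {g | ∃ B : Fin m → (Fin n → W) [⋀^Fin 2]→ₗ[ℚ] ℚ, (∀ l s, IsHodge (pow n (F.per s)) (B l)) ∧
    ∀ v, g v = ∑ σ : Equiv.Perm (Fin m × Fin 2), (Equiv.Perm.sign σ : ℤ) *
      ∏ l, B l ![v (σ (l, 0)), v (σ (l, 1))]}

/-- The identity of the rational homology comes from an isogeny of the complex tori with the tangent
spaces `T` and `T'`. -/
def IsIsogeny {W T T' : Type} [AddCommGroup W] [AddCommGroup T] [Module ℂ T] [AddCommGroup T']
    [Module ℂ T'] (p : W →+ T) (p' : W →+ T') : Prop :=
  ∃ e : T ≃ₗ[ℂ] T', ∀ w, e (p w) = p' w

/-- Some fibre of the family is isogenous to the product over `i : ι` of the abelian varieties of CM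
type `(E i, Φ i)`; the rational homology is identified with the product of the fields. -/
def Family.HasFibre {ι : Type} {E : ι → Type} [∀ i, Field (E i)] (F : Family (∀ i, E i))
    (Φ : ∀ i, Set (E i →+* ℂ)) : Prop :=
  ∃ s, IsIsogeny (F.per s) (Pool.Agent.H204R3.CM.per Φ id)

/-- A smooth projective family (or a relative category) over the base whose universal covering is `S`:
`H` is the space of the flat classes on `S`, `inv` the set of those that come from global sections over
the base, `hdg s` and `alg s` consist of the classes that are Hodge classes, and algebraic, at `s`. -/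
structure Variation (S : Type) where
  H : Type
  [groupH : AddCommGroup H]
  [moduleH : Module ℚ H]
  inv : Set H
  hdg : S → Set H
  alg : S → Submodule ℚ H

attribute [instance] Variation.groupH Variation.moduleH

/-- Algebraic classes are Hodge classes; and a global section that is a Hodge class at one point is a
Hodge class at all points (theorem of the fixed part, Deligne). -/
structure Variation.IsVariation {S : Type} (V : Variation S) : Prop where
  le : ∀ s, ∀ x ∈ V.alg s, x ∈ V.hdg s
  fixed : ∀ x ∈ V.inv, ∀ s s', x ∈ V.hdg s → x ∈ V.hdg s'

/-- The variational Hodge conjecture: a global section that is algebraic at one point is algebraic at all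
points. -/
def Variation.Holds {S : Type} (V : Variation S) : Prop :=
  ∀ x ∈ V.inv, ∀ s s', x ∈ V.alg s → x ∈ V.alg s'

/-- The operation `i` of a relative correspondence on the flat classes preserves Hodge classes. -/
def PreservesHodge (F : Family W) (V : Variation F.S) {n m : ℕ} (i : V.H →ₗ[ℚ] Form W n m) : Prop :=
  ∀ s, ∀ x ∈ V.hdg s, IsHodge (pow n (F.per s)) (i x)

/-- The operation `r` of a relative correspondence maps the products of rational Hodge classes of degree
two, which are algebraic by the theorem of Lefschetz, to algebraic classes. -/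
def PreservesCycles (F : Family W) (V : Variation F.S) {n m : ℕ} (r : Form W n m →ₗ[ℚ] V.H) :
    Prop :=
  ∀ s, ∀ y ∈ wedgeSet (pow n (F.per s)) m, r y ∈ V.alg s

/-- The cohomology of degree `2 q` of `X → S` is a direct summand of the sum, over `l : L`, of the
cohomology groups of degree `2 (m l)` of the fibre powers `A ^ (n l)` of the abelian scheme `F`, by
relative correspondences `i l`, `r l`. -/
def IsGenerated (F : Family W) (V : Variation F.S) : Prop :=
  ∃ (L : Type) (_ : Fintype L) (n m : L → ℕ) (i : ∀ l, V.H →ₗ[ℚ] Form W (n l) (m l))
    (r : ∀ l, Form W (n l) (m l) →ₗ[ℚ] V.H),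
    (∀ l, PreservesHodge F V (i l)) ∧ (∀ l, PreservesCycles F V (r l)) ∧ ∀ x, ∑ l, r l (i l x) = x

/-- The classes of all even degrees on the rational homology of `A ^ n` (by the Chern character the
topological K-theory with rational coefficients). -/
abbrev Even (W : Type) [AddCommGroup W] [Module ℚ W] (n : ℕ) : Type := ∀ m : ℕ, Form W n m

/-- The morphism `i` of relative noncommutative motives preserves Hodge classes in the topological
K-theory (classes all of whose components are Hodge classes). -/
def PreservesHodgeNC (F : Family W) (V : Variation F.S) {n : ℕ} (i : V.H →ₗ[ℚ] Even W n) : Prop :=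
  ∀ s, ∀ x ∈ V.hdg s, ∀ m, IsHodge (pow n (F.per s)) (i x m)

/-- The morphism `r` of relative noncommutative motives maps the products of rational Hodge classes of
degree two (these are Chern characters: Lefschetz theorem, logarithms and products of classes of line
bundles) to classes of objects. -/
def PreservesObjects (F : Family W) (V : Variation F.S) {n : ℕ} (r : Even W n →ₗ[ℚ] V.H) : Prop :=
  ∀ s m, ∀ y ∈ wedgeSet (pow n (F.per s)) m, r (Pi.single m y) ∈ V.alg s

/-- The topological K-theory of the relative category `𝒞 / S` is a direct summand of the sum of those of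
the fibre powers `A ^ (n l)` of the abelian scheme `F`, by morphisms of relative noncommutative motives
`i l`, `r l`. -/
def IsGeneratedNC (F : Family W) (V : Variation F.S) : Prop :=
  ∃ (L : Type) (_ : Fintype L) (n : L → ℕ) (i : ∀ l, V.H →ₗ[ℚ] Even W (n l))
    (r : ∀ l, Even W (n l) →ₗ[ℚ] V.H),
    (∀ l, PreservesHodgeNC F V (i l)) ∧ (∀ l, PreservesObjects F V (r l)) ∧ ∀ x, ∑ l, r l (i l x) = x

end Pool.Agent.TH170.VH
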