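import Mathlib
import Pool.Agent.TH170.VH.Defs
import Pool.Agent.TH170.CM.Family

/-!
# Families of abelian varieties with a nondegenerate fibre of CM type
-/

set_option autoImplicit false

namespace Pool.Agent.TH170.VH

open NumberField Module Pool.Agent.H204R3.CM Pool.Agent.H977R3.CM Equiv
  Pool.Agent.TH170.CM

section Count

variable {ι J : Type} [Fintype ι] {E : ι → Type} [∀ i, Field (E i)]
  [∀ i, NumberField (E i)] [∀ i, IsCMField (E i)] {L : Type} [Field L] [NumberField L]
  {Φ : ∀ i, Set (E i →+* ℂ)}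

/-- The complex conjugate of an embedding, for a family of fields. -/
noncomputable def inv (E : ι → Type) [∀ i, Field (E i)] [∀ i, NumberField (E i)]
    [∀ i, IsCMField (E i)] (L : Type) [Field L] (y : Σ i, (E i →+* L)) : Σ i, (E i →+* L) :=
  ⟨y.1, cbar y.2⟩

omit [Fintype ι] [NumberField L] in
theorem inv_inv (y : Σ i, (E i →+* L)) : inv E L (inv E L y) = y := by
  obtain ⟨i, φ⟩ := y
  simp only [inv, cbar_cbar]

omit [Fintype ι] [NumberField L] in
theorem inv_ne (y : Σ i, (E i →+* L)) : inv E L y ≠ y := by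
  obtain ⟨i, φ⟩ := y
  intro hy
  simp only [inv, Sigma.mk.injEq, heq_eq_eq, true_and] at hy
  exact cbar_ne φ hy

open Classical in
theorem count_of_nondeg [IsGalois ℚ L] (hΦ : ∀ i, IsCMType (Φ i)) (t : J → ι) (j : L →+* ℂ)
    (hnd : Nondeg Φ j) {κ : Type} [Fintype κ] (I : κ → XX E t L)
    (h1 : ∀ σ : L ≃ₐ[ℚ] L,
      ∑ l, (if j.comp (σ • (I l).2) ∈ Φ (t (I l).1) then (1 : ℤ) else -1) = 0)
    (y : Σ i, (E i →+* L)) :
    (Finset.univ.filter (fun l => (⟨t (I l).1, (I l).2⟩ : Σ i, (E i →+* L)) = y)).card =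
      (Finset.univ.filter
        (fun l => (⟨t (I l).1, (I l).2⟩ : Σ i, (E i →+* L)) = inv E L y)).card := by
  let a : κ → Σ i, (E i →+* L) := fun l => ⟨t (I l).1, (I l).2⟩
  let N : (Σ i, (E i →+* L)) → ℤ := fun y => ((Finset.univ.filter (fun l => a l = y)).card : ℤ)
  have hinv : ∀ y : Σ i, (E i →+* L), inv E L (inv E L y) = y := inv_inv
  have hN0 : ∀ i φ, N ⟨i, φ⟩ - N (inv E L ⟨i, φ⟩) = 0 := by
    have hnd' : ∀ c : ∀ i, (E i →+* L) → ℤ, (∀ i φ, c i (cbar φ) = -c i φ) →
        (∀ σ : L ≃ₐ[ℚ] L,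
          ∑ i, ∑ φ, c i φ * (if j.comp (σ • φ) ∈ Φ i then (1 : ℤ) else -1) = 0) →
        ∀ i φ, c i φ = 0 := by
      intro c hc1 hc2
      refine hnd c hc1 fun σ => ?_
      rw [← hc2 σ]
    apply hnd' (fun i φ => N ⟨i, φ⟩ - N (inv E L ⟨i, φ⟩))
    · intro i φ
      have h2 : (⟨i, cbar φ⟩ : Σ i, (E i →+* L)) = inv E L ⟨i, φ⟩ := rfl
      rw [h2, hinv]
      ring
    · intro σ
      let u : (Σ i, (E i →+* L)) → ℤ := fun y => if j.comp (σ • y.2) ∈ Φ y.1 then 1 else -1
      have hu : ∀ y, u (inv E L y) = -u y := by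
        rintro ⟨i, φ⟩
        have h3 : j.comp (σ • cbar φ) = ComplexEmbedding.conjugate (j.comp (σ • φ)) := by
          rw [← comp_cbar]
          rfl
        change (if j.comp (σ • cbar φ) ∈ Φ i then (1 : ℤ) else -1) =
          -(if j.comp (σ • φ) ∈ Φ i then (1 : ℤ) else -1)
        rw [h3]
        by_cases h4 : j.comp (σ • φ) ∈ Φ i
        · rw [if_pos h4, if_neg ((hΦ i _).1 h4)]
        · rw [if_neg h4, if_pos (conj_mem hΦ h4), neg_neg]
      have h2 : ∑ y, N y * u y = 0 := by
        have h3 : ∀ y, N y * u y = ∑ l, if a l = y then u y else 0 := by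
          intro y
          rw [← Finset.sum_filter, Finset.sum_const, nsmul_eq_mul]
        rw [Finset.sum_congr rfl (fun y _ => h3 y), Finset.sum_comm]
        have h4 : ∀ l, ∑ y, (if a l = y then u y else 0) = u (a l) := by
          intro l
          rw [Finset.sum_ite_eq Finset.univ (a l), if_pos (Finset.mem_univ _)]
        rw [Finset.sum_congr rfl (fun l _ => h4 l)]
        exact h1 σ
      have h3 : ∑ y, N (inv E L y) * u y = 0 := by
        have h4 : ∑ y, N (inv E L y) * u y = ∑ y, -(N y * u y) := by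
          refine Finset.sum_nbij' (inv E L) (inv E L) (fun _ _ => Finset.mem_univ _)
            (fun _ _ => Finset.mem_univ _) (fun y _ => hinv y) (fun y _ => hinv y)
            (fun y _ => ?_)
          rw [hu]
          ring
        rw [h4, Finset.sum_neg_distrib, h2, neg_zero]
      have h4 : ∑ y, (N y - N (inv E L y)) * u y = 0 := by
        simp only [sub_mul, Finset.sum_sub_distrib, h2, h3, sub_zero]
      rw [Fintype.sum_sigma] at h4
      exact h4
  obtain ⟨i, φ⟩ := y
  have h2 := hN0 i φ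
  have h3 : N ⟨i, φ⟩ = N (inv E L ⟨i, φ⟩) := by linarith
  exact Int.ofNat.inj h3

end Count

theorem isHodge_reindex {W T : Type} [AddCommGroup W] [Module ℚ W] [AddCommGroup T] [Module ℂ T]
    (p : W →+ T) {κ κ' : Type} (σ : κ ≃ κ') (f : W [⋀^κ]→ₗ[ℚ] ℚ) (hf : IsHodge p f) :
    IsHodge p (f.domDomCongr σ) := by
  obtain ⟨ψ, h1, h2⟩ := hf
  refine ⟨ψ.domDomCongr σ, fun v => ?_, fun z hz u => ?_⟩
  · rw [MultilinearMap.domDomCongr_apply, AlternatingMap.domDomCongr_apply]
    exact h1 fun l => v (σ l)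
  · rw [MultilinearMap.domDomCongr_apply, MultilinearMap.domDomCongr_apply]
    exact h2 z hz fun l => u (σ l)

section Fibre

variable {ι : Type} [Fintype ι] {E : ι → Type} [∀ i, Field (E i)] [∀ i, NumberField (E i)]
  [∀ i, IsCMField (E i)] {Φ : ∀ i, Set (E i →+* ℂ)}

/-- The exchange of variables. -/
def cur (E : ι → Type) [∀ i, Field (E i)] [∀ i, NumberField (E i)] (n : ℕ) :
    (∀ a : Fin n × ι, E a.2) →ₗ[ℚ] (Fin n → ∀ i, E i) where
  toFun w k i := w (k, i)
  map_add' _ _ := rfl
  map_smul' _ _ := rfl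

omit [Fintype ι] [∀ i, IsCMField (E i)] in
theorem isHodge_cur {T : Type} [AddCommGroup T] [Module ℂ T] (p : (∀ i, E i) →+ T)
    (e : T ≃ₗ[ℂ] Tan Φ (id : ι → ι)) (he : ∀ w, e (p w) = per Φ id w) {n m : ℕ}
    (f : Form (∀ i, E i) n m) (hf : IsHodge (pow n p) f) :
    IsHodge (per Φ (Prod.snd : Fin n × ι → ι)) (f.compLinearMap (cur E n)) := by
  obtain ⟨ψ, h1, h2⟩ := hf
  let cur' : Tan Φ (Prod.snd : Fin n × ι → ι) →ₗ[ℂ] (Fin n → T) :=
    { toFun := fun u k => e.symm (fun i => u (k, i))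
      map_add' := fun u v => by
        funext k
        exact map_add e.symm _ _
      map_smul' := fun z u => by
        funext k
        exact map_smul e.symm z _ }
  refine ⟨ψ.compLinearMap (fun _ => cur'.restrictScalars ℝ), fun v => ?_, fun z hz u => ?_⟩
  · rw [MultilinearMap.compLinearMap_apply, AlternatingMap.compLinearMap_apply, ← h1]
    congr 1
    funext l k
    change e.symm (per Φ id (cur E n (v l) k)) = p (cur E n (v l) k)
    rw [← he, LinearEquiv.symm_apply_apply]
  · rw [MultilinearMap.compLinearMap_apply, MultilinearMap.compLinearMap_apply]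
    have h3 : ∀ l, cur'.restrictScalars ℝ (z • u l) = z • cur'.restrictScalars ℝ (u l) :=
      fun l => map_smul cur' z (u l)
    simp only [h3]
    exact h2 z hz _

/-- The coordinates given by the embeddings. -/
noncomputable def coord (E : ι → Type) [∀ i, Field (E i)] [∀ i, NumberField (E i)] {L : Type}
    [Field L] (j : L →+* ℂ) (b : Σ i, (E i →+* L)) : (∀ i, E i) →ₗ[ℚ] ℂ :=
  ((j.comp b.2).toRatAlgHom.toLinearMap).comp (LinearMap.proj b.1)

omit [Fintype ι] [∀ i, IsCMField (E i)] in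
theorem coord_apply {L : Type} [Field L] (j : L →+* ℂ) (b : Σ i, (E i →+* L)) (w : ∀ i, E i) :
    coord E j b w = j (b.2 (w b.1)) := rfl

omit [∀ i, IsCMField (E i)] in
theorem coord_indep {L : Type} [Field L] [NumberField L] (j : L →+* ℂ) :
    LinearIndependent ℂ fun b : Σ i, (E i →+* L) => (coord E j b : (∀ i, E i) → ℂ) := by
  classical
  rw [Fintype.linearIndependent_iff]
  intro a ha b
  obtain ⟨i, φ⟩ := b
  have h1 : LinearIndependent ℂ fun φ : E i →+* L => ((j.comp φ : E i →+* ℂ) : E i → ℂ) := by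
    have h2 := linearIndependent_monoidHom (E i) ℂ
    refine h2.comp (fun φ : E i →+* L => ((j.comp φ : E i →+* ℂ) : E i →* ℂ)) ?_
    intro φ φ' h
    ext x
    exact j.injective (DFunLike.congr_fun h x)
  rw [Fintype.linearIndependent_iff] at h1
  refine h1 (fun φ => a ⟨i, φ⟩) ?_ φ
  funext y
  have h2 := congrFun ha (Pi.single i y)
  rw [Finset.sum_apply, Fintype.sum_sigma, Finset.sum_eq_single i] at h2
  · rw [Finset.sum_apply]
    refine (Finset.sum_congr rfl fun φ _ => ?_).trans h2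
    simp only [Pi.smul_apply, coord_apply, Pi.single_eq_same]
    rfl
  · intro k _ hk
    refine Finset.sum_eq_zero fun φ _ => ?_
    simp only [Pi.smul_apply, coord_apply, Pi.single_eq_of_ne hk, map_zero, smul_zero]
  · intro h3
    exact absurd (Finset.mem_univ i) h3

open Classical in
theorem isInvariant_of_hodge {L : Type} [Field L] [NumberField L] [IsGalois ℚ L] (j : L →+* ℂ)
    (hj : ∀ i, ∀ ψ : E i →+* ℂ, ∃ φ : E i →+* L, j.comp φ = ψ)
    (hΦ : ∀ i, IsCMType (Φ i)) (hnd : Nondeg Φ j) {T : Type} [AddCommGroup T] [Module ℂ T]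
    (p : (∀ i, E i) →+ T) (e : T ≃ₗ[ℂ] Tan Φ (id : ι → ι)) (he : ∀ w, e (p w) = per Φ id w)
    {n m : ℕ} (f : Form (∀ i, E i) n m) (hf : IsHodge (pow n p) f) :
    IsInvariant (inv E L) (coord E j) f := by
  set t : Fin n × ι → ι := Prod.snd with ht
  have h1 := isHodge_cur p e he f hf
  obtain ⟨c, hc⟩ := form_coeff t j hj (f.compLinearMap (cur E n)).toMultilinearMap
  -- the identification of the indices
  let q : XX E t L ≃ Fin n × (Σ i, (E i →+* L)) :=
    { toFun := fun x => (x.1.1, ⟨x.1.2, x.2⟩)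
      invFun := fun y => ⟨(y.1, y.2.1), y.2.2⟩
      left_inv := fun x => rfl
      right_inv := fun y => rfl }
  refine ⟨fun I => j (c fun l => q.symm (I l)), fun I hI b => ?_, fun v => ?_⟩
  · have hI' : c (fun l => q.symm (I l)) ≠ 0 := fun h => hI ((congrArg j h).trans (map_zero j))
    have h2 := count_of_nondeg hΦ t j hnd (fun l => q.symm (I l))
      (balanced_of_hodge t j hΦ hj _ h1 c hc _ hI') b
    have h3 : ∀ l, (⟨t (q.symm (I l)).1, (q.symm (I l)).2⟩ : Σ i, (E i →+* L)) = (I l).2 :=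
      fun l => rfl
    simp only [h3] at h2
    convert h2
  · have h2 := hc (fun l a => v l a.1 a.2)
    have h3 : (f.compLinearMap (cur E n)).toMultilinearMap (fun l a => v l a.1 a.2) = f v := rfl
    rw [h3] at h2
    have h4 := congrArg j h2
    rw [map_ratCast, map_sum] at h4
    rw [h4]
    refine Fintype.sum_equiv (Equiv.arrowCongr (Equiv.refl _) q) _ _ fun I => ?_
    rw [map_mul, map_prod]
    rfl

/-- **Families with a nondegenerate fibre of CM type.** -/
theorem flat_of_not_degenerate (hH : HazamaTheorem) (hΦ : ∀ i, IsCMType (Φ i))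
    (hind : PairwiseIndep E) (hnd : ∀ i, ¬ Degenerate (Φ i)) (F : Family (∀ i, E i))
    (hF : F.IsAbelian) (h0 : F.HasFibre Φ) {n m : ℕ} (f : Form (∀ i, E i) n m)
    (hf : F.IsHodgeEverywhere f) : f ∈ Submodule.span ℚ (F.flatWedges n m) := by
  classical
  obtain ⟨s₁, hs₁⟩ := hF.generic
  obtain ⟨s₀, e, he⟩ := h0
  obtain ⟨L, _, _, j, hj⟩ := exists_galois E
  have hN := nondeg_of_not_degenerate hΦ j hj hind hnd
  have hrank : HasFullRank (F.per s₁) := by
    refine ⟨Σ i, (E i →+* L), inferInstance, inferInstance, inv E L, coord E j, inv_inv, inv_ne,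
      ?_, coord_indep j, ?_⟩
    · rw [Fintype.card_sigma, Module.finrank_pi_fintype]
      exact Finset.sum_congr rfl fun i _ => card_emb j (hj i)
    · intro n m f hf
      exact isInvariant_of_hodge j hj hΦ hN (F.per s₀) e he f (hs₁ n m f hf s₀)
  have hgen := hH _ _ (F.per s₁) (hF.torus s₁) (hF.polarizable s₁) hrank n m f (hf s₁)
  refine Submodule.span_mono ?_ hgen
  rintro g ⟨B, hB, hg⟩
  refine ⟨B, fun l s => ?_, hg⟩
  let σ : Fin 2 ≃ Fin 1 × Fin 2 := (Equiv.uniqueProd (Fin 2) (Fin 1)).symm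
  have h1 : F.IsHodgeEverywhere ((B l).domDomCongr σ : Form (∀ i, E i) n 1) :=
    hs₁ n 1 _ (isHodge_reindex _ σ _ (hB l))
  have h2 := isHodge_reindex _ σ.symm _ (h1 s)
  have h3 : ((B l).domDomCongr σ).domDomCongr σ.symm = B l := by
    ext v
    rw [AlternatingMap.domDomCongr_apply, AlternatingMap.domDomCongr_apply]
    exact congrArg (B l) (funext fun k => congrArg v (σ.symm_apply_apply k))
  rwa [h3] at h2

theorem wedge_of_flat {W : Type} [AddCommGroup W] [Module ℚ W] (F : Family W) (n m : ℕ) (s : F.S)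
    {H : Type} [AddCommGroup H] [Module ℚ H] (r : Form W n m →ₗ[ℚ] H) (A : Submodule ℚ H)
    (h : ∀ y ∈ wedgeSet (pow n (F.per s)) m, r y ∈ A) {f : Form W n m}
    (hf : f ∈ Submodule.span ℚ (F.flatWedges n m)) : r f ∈ A := by
  have h1 : Submodule.span ℚ (F.flatWedges n m) ≤ A.comap r := by
    rw [Submodule.span_le]
    rintro g ⟨B, hB, hg⟩
    exact h g ⟨B, fun l => hB l s, hg⟩
  exact h1 hf

/-- The variational Hodge conjecture for families generated by an abelian scheme with a nondegenerate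
fibre of CM type. -/
theorem holds_of_not_degenerate (hH : HazamaTheorem) (hΦ : ∀ i, IsCMType (Φ i))
    (hind : PairwiseIndep E) (hnd : ∀ i, ¬ Degenerate (Φ i)) (F : Family (∀ i, E i))
    (hF : F.IsAbelian) (h0 : F.HasFibre Φ) (V : Variation F.S) (hV : V.IsVariation)
    (hG : IsGenerated F V) : V.Holds := by
  obtain ⟨L, _, n, m, i, r, h1, h2, h3⟩ := hG
  intro x hx s s' hs
  rw [← h3 x]
  refine Submodule.sum_mem _ fun l _ => ?_
  refine wedge_of_flat F _ _ s' (r l) _ (h2 l s')
    (flat_of_not_degenerate hH hΦ hind hnd F hF h0 _ fun s'' => ?_)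
  exact h1 l s'' x (hV.fixed x hx s s'' (hV.le s x hs))

/-- Forms of large degree vanish. -/
theorem form_eq_zero {W : Type} [AddCommGroup W] [Module ℚ W] [FiniteDimensional ℚ W] (n m : ℕ)
    (hm : finrank ℚ (Fin n → W) < m) (f : Form W n m) : f = 0 := by
  ext v
  refine AlternatingMap.map_linearDependent f v fun h => ?_
  have h1 := h.fintype_card_le_finrank
  rw [Fintype.card_prod, Fintype.card_fin, Fintype.card_fin] at h1
  omega

/-- The noncommutative variational Hodge conjecture. -/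
theorem nc_of_not_degenerate (hH : HazamaTheorem) (hΦ : ∀ i, IsCMType (Φ i))
    (hind : PairwiseIndep E) (hnd : ∀ i, ¬ Degenerate (Φ i)) (F : Family (∀ i, E i))
    (hF : F.IsAbelian) (h0 : F.HasFibre Φ) (V : Variation F.S) (hV : V.IsVariation)
    (hG : IsGeneratedNC F V) : V.Holds := by
  classical
  obtain ⟨L, _, n, i, r, h1, h2, h3⟩ := hG
  intro x hx s s' hs
  rw [← h3 x]
  refine Submodule.sum_mem _ fun l _ => ?_
  have h4 : i l x = ∑ m ∈ Finset.range (finrank ℚ (Fin (n l) → ∀ i, E i) + 1),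
      (Pi.single m (i l x m) : Even (∀ i, E i) (n l)) := by
    funext k
    rw [Finset.sum_apply]
    by_cases hk : k < finrank ℚ (Fin (n l) → ∀ i, E i) + 1
    · rw [Finset.sum_eq_single k, Pi.single_eq_same]
      · intro m _ hmk
        rw [Pi.single_eq_of_ne (Ne.symm hmk)]
      · intro hk'
        exact absurd (Finset.mem_range.2 hk) hk'
    · rw [form_eq_zero (n l) k (by omega) (i l x k)]
      refine (Finset.sum_eq_zero fun m hm => ?_).symm
      rw [Pi.single_eq_of_ne]
      intro h6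
      rw [Finset.mem_range] at hm
      omega
  rw [h4, map_sum]
  refine Submodule.sum_mem _ fun m _ => ?_
  refine wedge_of_flat F _ _ s' ((r l).comp (LinearMap.single ℚ (fun m => Form _ (n l) m) m)) _
    (h2 l s' m) (flat_of_not_degenerate hH hΦ hind hnd F hF h0 _ fun s'' => ?_)
  exact h1 l s'' x (hV.fixed x hx s s'' (hV.le s x hs)) m

end Fibre

end Pool.Agent.TH170.VH
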